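import Pool.Agent.N916.GB.Stm
import Pool.Agent.N973.ND.BOX0

/-!
# GB-BOX: the count in a box (after the file BOX of project ND by helper973)
-/

set_option autoImplicit false
set_option linter.unusedSectionVars false

open scoped Classical

namespace Pool.Agent.N958.GB

open Finset
open Pool.Agent.Y703.CQ (nr sg)
open Pool.Agent.N973.ND (uu nr_rec nr_self)
open Pool.Agent.N916.GB

/-- the type of the labels -/
abbrev Lb (S₀ : Finset ℕ) : Type := ((insert 2 S₀ : Finset ℕ) → ZMod 2) × (S₀ → ZMod 2)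

/-- the label of a prime with respect to the small primes -/
noncomputable def lb (S₀ : Finset ℕ) (x : ℕ) : Lb S₀ := (fun v => nr x v, fun v => nr v x)

/-- the good labels -/
def LN {ι : Type} (S₀ : Finset ℕ) (τ : ι → ℕ) (β : ι → Lb S₀) : Prop :=
  ∀ (w : ℕ → ZMod 2) (s : ZMod 2), ((∃ v ∈ insert 2 S₀, w v ≠ 0) ∨ s ≠ 0) →
    ∃ i, ∑ v : (insert 2 S₀ : Finset ℕ), w v * (β i).1 v + s * (if τ i = 3 then 1 else 0) ≠ 0

theorem uu_eq {n k : ℕ} (h : n % 4 = k) : uu n = if k = 3 then 1 else 0 := by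
  unfold uu
  rw [h]

theorem mem_Vt {t : Bool} {S : Finset ℕ} {x : ℕ} : x ∈ Vt t S ↔ (t = true ∧ x = 2) ∨ x ∈ S := by
  unfold Vt
  split_ifs with h
  · simp [h]
  · simp [h]

theorem Vt_sub (t : Bool) (S : Finset ℕ) : Vt t S ⊆ insert 2 S := by
  intro x hx
  rcases mem_Vt.1 hx with h | h
  · exact mem_insert.2 (Or.inl h.2)
  · exact mem_insert_of_mem h

/-- the good sets from a parametrization -/
theorem Gd_iff {V : Type} [Fintype V] (t : Bool) (r s : ZMod 2) {ρ : V → ℕ}
    (hρ : Function.Injective ρ) {S : Finset ℕ} (hS : univ.image ρ = Vt t S) :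
    Gd t r s S ↔ Gv fun i j => sy r s (ρ i) (ρ j) := by
  have h1 : ∀ i, ρ i ∈ Vt t S := fun i => by
    rw [← hS]
    exact mem_image_of_mem _ (mem_univ _)
  have h2 : ∀ x ∈ Vt t S, ∃ i, ρ i = x := by
    intro x hx
    rw [← hS, mem_image] at hx
    obtain ⟨i, -, hi⟩ := hx
    exact ⟨i, hi⟩
  have h3 : ∀ f : ℕ → ZMod 2, ∑ p ∈ Vt t S, f p = ∑ i, f (ρ i) := by
    intro f
    rw [← hS, sum_image fun i _ j _ h => hρ h]
  unfold Gd Gv
  constructor
  · intro h x hx i j
    have h4 : ∀ i, Function.extend ρ x 0 (ρ i) = x i := fun i => hρ.extend_apply x 0 i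
    have h5 := h (Function.extend ρ x 0) (by
      intro q hq
      obtain ⟨i, rfl⟩ := h2 q hq
      rw [h3]
      simp only [h4]
      exact hx i) (ρ i) (h1 i) (ρ j) (h1 j)
    rwa [h4, h4] at h5
  · intro h x hx p hp q hq
    obtain ⟨i, rfl⟩ := h2 p hp
    obtain ⟨j, rfl⟩ := h2 q hq
    refine h (fun i => x (ρ i)) (fun i => ?_) i j
    have h4 := hx (ρ i) (h1 i)
    rwa [h3] at h4

section
variable {ι : Type} [Fintype ι] [LinearOrder ι] {S₀ : Finset ℕ} {p : ι → ℕ} {τ : ι → ℕ}
  (t : Bool) (r s : ZMod 2)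

theorem nd_iff (hτ : ∀ i, p i % 4 = τ i) :
    Nd S₀ (univ.image p) ↔ LN S₀ τ (fun i => lb S₀ (p i)) := by
  have key : ∀ (w : ℕ → ZMod 2) (s : ZMod 2) (i : ι),
      ∑ v ∈ insert 2 S₀, w v * nr (p i) v + s * uu (p i) =
      ∑ v : (insert 2 S₀ : Finset ℕ), w v * (lb S₀ (p i)).1 v +
        s * (if τ i = 3 then 1 else 0) := by
    intro w s i
    rw [uu_eq (hτ i), ← Finset.sum_coe_sort (insert 2 S₀)]
    rfl
  unfold Nd LN
  constructor
  · intro h w s hw
    obtain ⟨x, hx, hx2⟩ := h w s hw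
    obtain ⟨i, -, rfl⟩ := mem_image.1 hx
    exact ⟨i, by rw [← key]; exact hx2⟩
  · intro h w s hw
    obtain ⟨i, hi⟩ := h w s hw
    exact ⟨p i, mem_image_of_mem _ (mem_univ _), by rw [key]; exact hi⟩

/-- the parametrization -/
def rr (t : Bool) (S₀ : Finset ℕ) (p : ι → ℕ) : (Vt t S₀ : Finset ℕ) ⊕ ι → ℕ :=
  Sum.elim (fun u => (u : ℕ)) p

theorem rr_inj (hp : Function.Injective p) (hd : ∀ i, p i ∉ S₀) (h2 : ∀ i, p i ≠ 2) :
    Function.Injective (rr t S₀ p) := by
  have hd' : ∀ (u : (Vt t S₀ : Finset ℕ)) (i : ι), (u : ℕ) ≠ p i := by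
    intro u i h
    rcases mem_Vt.1 u.2 with h1 | h1
    · exact h2 i (by rw [← h]; exact h1.2)
    · exact hd i (by rw [← h]; exact h1)
  rintro (u | i) (v | j) h
  · exact congrArg Sum.inl (Subtype.ext h)
  · exact absurd h (hd' u j)
  · exact absurd h.symm (hd' v i)
  · exact congrArg Sum.inr (hp h)

theorem rr_im : univ.image (rr t S₀ p) = Vt t (S₀ ∪ univ.image p) := by
  ext x
  rw [mem_Vt, mem_union, mem_image, mem_image]
  constructor
  · rintro ⟨u | i, -, rfl⟩
    · rcases mem_Vt.1 u.2 with h | h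
      · exact Or.inl h
      · exact Or.inr (Or.inl h)
    · exact Or.inr (Or.inr ⟨i, mem_univ _, rfl⟩)
  · rintro (h | h | ⟨i, -, rfl⟩)
    · exact ⟨Sum.inl ⟨x, mem_Vt.2 (Or.inl h)⟩, mem_univ _, rfl⟩
    · exact ⟨Sum.inl ⟨x, mem_Vt.2 (Or.inr h)⟩, mem_univ _, rfl⟩
    · exact ⟨Sum.inr i, mem_univ _, rfl⟩

/-- the matrix of a tuple -/
noncomputable def NR (r s : ZMod 2) {V : Type} (ρ : V → ℕ) (i j : V) : ZMod 2 :=
  sy r s (ρ i) (ρ j)

/-- the symbols of a tuple -/
noncomputable def sgm (p : ι → ℕ) (e : ps ι) : ZMod 2 := nr (p e.1.1) (p e.1.2)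

theorem sx_self (σ : ps ι → ZMod 2) (k : ι) : sx σ k k = 0 := by
  have h : (k, k) ∉ ps ι := fun h => lt_irrefl k (mem_filter.1 h).2
  unfold sx
  rw [dif_neg h, dif_neg h]

/-- the symmetric extension of the change of the symbols -/
theorem sx_sgm {p p₀ : ι → ℕ} (k l : ι) (hkl : k ≠ l)
    (hs : nr (p l) (p k) + nr (p₀ l) (p₀ k) = nr (p k) (p l) + nr (p₀ k) (p₀ l)) :
    sx (sgm p + sgm p₀) k l = nr (p l) (p k) + nr (p₀ l) (p₀ k) := by
  unfold sx
  rcases lt_or_gt_of_ne hkl with h | h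
  · have h1 : (k, l) ∈ ps ι := mem_filter.2 ⟨mem_univ _, h⟩
    rw [dif_pos h1, hs]
    rfl
  · have h1 : (l, k) ∈ ps ι := mem_filter.2 ⟨mem_univ _, h⟩
    have h2 : (k, l) ∉ ps ι := fun h' => lt_asymm h (mem_filter.1 h').2
    rw [dif_neg h2, dif_pos h1]
    rfl

theorem sy_ne {q p : ℕ} (h : p ≠ 2) : sy r s q p = nr p q := by
  unfold sy
  rw [if_neg h]

theorem sy_two (q : ℕ) : sy r s q 2 = r * nr q 2 + s * uu q := by
  unfold sy
  rw [if_pos rfl]

/-- **two tuples with the same labels** -/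
theorem two_tuples {p p₀ : ι → ℕ}
    (hp : Function.Injective p) (hp₀ : Function.Injective p₀)
    (hpr : ∀ i, Po (p i)) (hpr₀ : ∀ i, Po (p₀ i))
    (hτ : ∀ i, p i % 4 = τ i) (hτ₀ : ∀ i, p₀ i % 4 = τ i)
    (hl : ∀ i, lb S₀ (p i) = lb S₀ (p₀ i)) :
    NR r s (rr t S₀ p) = pt (NR r s (rr t S₀ p₀)) (sx (sgm p + sgm p₀)) := by
  have huu : ∀ k, uu (p k) = uu (p₀ k) := by
    intro k
    rw [uu_eq (hτ k), uu_eq (hτ₀ k)]
  have hrn : ∀ k l, k ≠ l → nr (p l) (p k) + nr (p₀ l) (p₀ k) =
      nr (p k) (p l) + nr (p₀ k) (p₀ l) := by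
    intro k l hkl
    rw [nr_rec (hpr k).1 (hpr k).2 (hpr l).1 (hpr l).2 fun h => hkl (hp h),
      nr_rec (hpr₀ k).1 (hpr₀ k).2 (hpr₀ l).1 (hpr₀ l).2 fun h => hkl (hp₀ h), huu k, huu l]
    have : ∀ x y z : ZMod 2, x + z + (y + z) = x + y := by decide
    exact this _ _ _
  funext i j
  rcases i with u | k <;> rcases j with v | l
  · rfl
  · show sy r s u (p l) = sy r s u (p₀ l)
    rw [sy_ne r s (hpr l).2, sy_ne r s (hpr₀ l).2]
    exact congrFun (congrArg (fun t => t.1) (hl l)) ⟨u, Vt_sub t S₀ u.2⟩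
  · show sy r s (p k) v = sy r s (p₀ k) v
    by_cases hv : (v : ℕ) = 2
    · rw [hv, sy_two, sy_two, huu k]
      have h1 : nr (p k) 2 = nr (p₀ k) 2 :=
        congrFun (congrArg (fun t => t.1) (hl k)) ⟨2, mem_insert_self _ _⟩
      rw [h1]
    · rw [sy_ne r s hv, sy_ne r s hv]
      have hv2 : (v : ℕ) ∈ S₀ := by
        rcases mem_Vt.1 v.2 with h | h
        · exact absurd h.2 hv
        · exact h
      exact congrFun (congrArg (fun t => t.2) (hl k)) ⟨v, hv2⟩
  · show sy r s (p k) (p l) = sy r s (p₀ k) (p₀ l) + sx (sgm p + sgm p₀) k l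
    rw [sy_ne r s (hpr l).2, sy_ne r s (hpr₀ l).2]
    by_cases hkl : k = l
    · subst hkl
      rw [nr_self, nr_self, sx_self, add_zero]
    · rw [sx_sgm k l hkl (hrn k l hkl)]
      have : ∀ x y : ZMod 2, x = y + (x + y) := by decide
      exact this _ _

end

theorem HB_sub {ι : Type} {C : ι → Finset ℕ} {X : ι → ℕ}
    {κ : ℝ} (h : HB C X κ) (P : ι → ℕ → Prop) [∀ i, DecidablePred (P i)] :
    HB (fun i => (C i).filter (P i)) X κ := by
  intro i l hil c d hc hd
  have h1 := h i l hil (fun x => if P i x then c x else 0) (fun y => if P l y then d y else 0)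
    (fun x => by
      split_ifs
      · exact hc x
      · simp) (fun y => by
      split_ifs
      · exact hd y
      · simp)
  refine (le_of_eq ?_).trans h1
  congr 1
  rw [Finset.sum_filter]
  refine Finset.sum_congr rfl fun x _ => ?_
  by_cases hx : P i x
  · rw [if_pos hx, Finset.sum_filter]
    refine Finset.sum_congr rfl fun y _ => ?_
    by_cases hy : P l y
    · rw [if_pos hy, if_pos hx, if_pos hy]
    · rw [if_neg hy, if_neg hy, mul_zero, zero_mul]
  · rw [if_neg hx]
    symm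
    refine Finset.sum_eq_zero fun y _ => ?_
    rw [if_neg hx, zero_mul, zero_mul]

/-- the classes modulo `4` -/
noncomputable def ud (s : ZMod 2) {V : Type} (ρ : V → ℕ) (i : V) : ZMod 2 :=
  if ρ i = 2 then s else uu (ρ i)

/-- the relation of the rows -/
noncomputable def wd (r : ZMod 2) {V : Type} (ρ : V → ℕ) (i : V) : ZMod 2 :=
  if ρ i = 2 then r else 1

theorem sum_uu (F : Finset ℕ) : ∑ p ∈ F, uu p = (((F.filter fun p => p % 4 = 3).card : ℕ) : ZMod 2) := by
  rw [card_filter]
  push_cast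
  refine sum_congr rfl fun p _ => ?_
  unfold uu
  rfl

theorem z2 (x : ZMod 2) : x = 0 ∨ x = 1 := by
  revert x
  decide

/-- the reciprocity law of the matrix -/
theorem rec_NR (r s : ZMod 2) {V : Type} {ρ : V → ℕ} (hρ : Function.Injective ρ)
    (hpr : ∀ i, (ρ i).Prime) (i j : V) (hij : i ≠ j) :
    wd r ρ i * NR r s ρ i j + wd r ρ j * NR r s ρ j i = ud s ρ i * ud s ρ j := by
  have hne : ρ i ≠ ρ j := fun h => hij (hρ h)
  unfold wd NR ud
  by_cases hi : ρ i = 2
  · have hj : ρ j ≠ 2 := fun h => hne (hi.trans h.symm)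
    rw [if_pos hi, if_neg hj, if_pos hi, if_neg hj, hi, sy_ne r s hj, sy_two]
    have : ∀ a b c d : ZMod 2, a * b + 1 * (a * b + c * d) = c * d := by decide
    exact this _ _ _ _
  · rw [if_neg hi, if_neg hi]
    by_cases hj : ρ j = 2
    · rw [if_pos hj, if_pos hj, hj, sy_ne r s hi, sy_two]
      have : ∀ a b c d : ZMod 2, 1 * (a * b + c * d) + a * b = d * c := by decide
      exact this _ _ _ _
    · rw [if_neg hj, if_neg hj, sy_ne r s hi, sy_ne r s hj,
        nr_rec (hpr j) hj (hpr i) hi fun h => hne h.symm]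
      have : ∀ a b c : ZMod 2, 1 * a + 1 * (a + b * c) = c * b := by decide
      exact this _ _ _

/-- **The count in a box.** -/
theorem t_BOX : S_BOX := by
  intro hEQ hLA ε hε
  obtain ⟨V₀, hV₀⟩ := hLA ε hε
  refine ⟨V₀ + 2, ?_⟩
  intro t r s ι _ _ τ C X κ S₀ hts htr hκ hCX hHB hS₀ hC hdis hpar hcnt
  set R : ℝ := 2 ^ (ps ι).card * (κ * ∏ j, (X j : ℝ)) with hR
  have hR0 : 0 ≤ R := mul_nonneg (by positivity)
    (mul_nonneg hκ (Finset.prod_nonneg fun j _ => by positivity))
  -- facts on tuples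
  have hinj : ∀ p ∈ Fintype.piFinset C, Function.Injective p := by
    intro p hp i j hij
    rw [Fintype.mem_piFinset] at hp
    by_contra hne
    have h1 := Finset.disjoint_left.1 (hdis i j hne) (hp i)
    rw [hij] at h1
    exact h1 (hp j)
  have hτ : ∀ p ∈ Fintype.piFinset C, ∀ i, p i % 4 = τ i := by
    intro p hp i
    rw [Fintype.mem_piFinset] at hp
    exact (hC i _ (hp i)).2.2
  have hd : ∀ p ∈ Fintype.piFinset C, ∀ i, p i ∉ S₀ := by
    intro p hp i
    rw [Fintype.mem_piFinset] at hp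
    exact (hC i _ (hp i)).2.1
  have hpr : ∀ p ∈ Fintype.piFinset C, ∀ i, Po (p i) := by
    intro p hp i
    rw [Fintype.mem_piFinset] at hp
    exact (hC i _ (hp i)).1
  have h2S : 2 ∉ S₀ := fun h => (hS₀ 2 h).2 rfl
  have ht : ∀ v ∈ Vt t S₀, v = 2 → t = true := by
    intro v hv hv2
    rcases mem_Vt.1 hv with h | h
    · exact h.1
    · exact absurd (hv2 ▸ h) h2S
  -- the part with given labels
  have h1 : ∀ β : ι → Lb S₀, LN S₀ τ β →
      |(((Fintype.piFinset C).filter fun p => (fun i => lb S₀ (p i)) = β ∧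
          Gd t r s (S₀ ∪ univ.image p)).card : ℝ) -
        eta * (((Fintype.piFinset C).filter fun p => (fun i => lb S₀ (p i)) = β).card : ℝ)| ≤
      ε * (((Fintype.piFinset C).filter fun p => (fun i => lb S₀ (p i)) = β).card : ℝ) + R := by
    intro β hβ
    by_cases hemp : ((Fintype.piFinset C).filter fun p => (fun i => lb S₀ (p i)) = β) = ∅
    · have he2 : ((Fintype.piFinset C).filter fun p => (fun i => lb S₀ (p i)) = β ∧
          Gd t r s (S₀ ∪ univ.image p)) = ∅ := by
        rw [← Finset.filter_filter, hemp, Finset.filter_empty]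
      rw [he2, hemp]
      simpa using hR0
    obtain ⟨p₀, hp₀⟩ := Finset.nonempty_iff_ne_empty.2 hemp
    rw [Finset.mem_filter] at hp₀
    obtain ⟨hp₀, hp₀β⟩ := hp₀
    set C' : ι → Finset ℕ := fun i => (C i).filter fun q => lb S₀ q = β i with hC'
    have hpi : (Fintype.piFinset C).filter (fun p => (fun i => lb S₀ (p i)) = β) =
        Fintype.piFinset C' := by
      ext p
      simp only [Finset.mem_filter, Fintype.mem_piFinset, hC']
      constructor
      · rintro ⟨h2, h3⟩ i
        exact ⟨h2 i, congrFun h3 i⟩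
      · intro h2
        exact ⟨fun i => (h2 i).1, funext fun i => (h2 i).2⟩
    set r₀ := rr t S₀ p₀ with hr₀
    have hrp : ∀ i, (r₀ i).Prime := by
      rintro (v | k)
      · rcases mem_Vt.1 v.2 with h | h
        · show (v : ℕ).Prime
          rw [h.2]
          exact Nat.prime_two
        · exact (hS₀ _ h).1
      · exact (hpr p₀ hp₀ k).1
    have hrinj : Function.Injective r₀ :=
      rr_inj t (hinj p₀ hp₀) (hd p₀ hp₀) fun i => (hpr p₀ hp₀ i).2
    have hur : ∀ k : ι, ud s r₀ (Sum.inr k) = if τ k = 3 then 1 else 0 := by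
      intro k
      rw [← uu_eq (hτ p₀ hp₀ k)]
      exact if_neg (hpr p₀ hp₀ k).2
    have h2 := hV₀ (Vt t S₀) ι (wd r r₀) (ud s r₀) (NR r s r₀)
      (fun k => if_neg (hpr p₀ hp₀ k).2)
      (by
        rw [Fintype.sum_sum_type]
        have a1 : ∑ i, ud s r₀ (Sum.inr i : (Vt t S₀ : Finset ℕ) ⊕ ι) =
            (((univ.filter fun i => τ i = 3).card : ℕ) : ZMod 2) := by
          rw [card_filter]
          push_cast
          exact sum_congr rfl fun i _ => hur i
        have a2 : ∑ v : (Vt t S₀ : Finset ℕ), ud s r₀ (Sum.inl v : (Vt t S₀ : Finset ℕ) ⊕ ι) =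
            ∑ x ∈ Vt t S₀, if x = 2 then s else uu x := by
          rw [← Finset.sum_coe_sort (Vt t S₀)]
          rfl
        have a3 : ∑ x ∈ S₀, (if x = 2 then s else uu x) = ∑ x ∈ S₀, uu x :=
          sum_congr rfl fun x hx => if_neg (hS₀ x hx).2
        have a4 : ∑ x ∈ Vt t S₀, (if x = 2 then s else uu x) = s + ∑ x ∈ S₀, uu x := by
          cases t with
          | true =>
            show ∑ x ∈ insert 2 S₀, (if x = 2 then s else uu x) = s + ∑ x ∈ S₀, uu x
            rw [sum_insert h2S, a3, if_pos rfl]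
          | false =>
            show ∑ x ∈ S₀, (if x = 2 then s else uu x) = s + ∑ x ∈ S₀, uu x
            rw [a3, hts rfl, zero_add]
        have a5 : s = ((if s = 0 then 0 else 1 : ℕ) : ZMod 2) := by
          rcases z2 s with h | h <;> rw [h] <;> simp
        rw [a1, a2, a4, sum_uu]
        have a6 : s + (((S₀.filter fun p => p % 4 = 3).card : ℕ) : ZMod 2) +
            (((univ.filter fun i => τ i = 3).card : ℕ) : ZMod 2) =
            (((S₀.filter fun p => p % 4 = 3).card + (univ.filter fun i => τ i = 3).card +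
              (if s = 0 then 0 else 1) : ℕ) : ZMod 2) := by
          rw [Nat.cast_add, Nat.cast_add, ← a5]
          ring
        rw [a6, ← ZMod.natCast_mod, hpar]
        rfl)
      (fun i j hij => rec_NR r s hrinj hrp i j hij)
      (by
        intro v hv
        have b1 : ∀ v' : (Vt t S₀ : Finset ℕ), wd r r₀ (Sum.inl v') = 0 → (v' : ℕ) = 2 ∧ r = 0 := by
          intro v' hv'
          have hv'' : (if (v' : ℕ) = 2 then r else 1) = 0 := hv'
          by_cases h : (v' : ℕ) = 2
          · rw [if_pos h] at hv''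
            exact ⟨h, hv''⟩
          · rw [if_neg h] at hv''
            exact absurd hv'' (by decide)
        obtain ⟨b2, b3⟩ := b1 v hv
        refine ⟨?_, fun v' hv' => Subtype.ext (b2.trans (b1 v' hv').1.symm)⟩
        have b4 : s = 1 := by
          rcases z2 s with h | h
          · exact absurd (htr (ht v v.2 b2)) (by
              rintro (h' | h')
              · exact h' b3
              · exact h' h)
          · exact h
        show (if (v : ℕ) = 2 then s else uu v) = 1
        rw [if_pos b2, b4])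
      (by
        intro b s' hbs
        set w : ℕ → ZMod 2 := fun n => if h : n ∈ Vt t S₀ then b ⟨n, h⟩ else 0 with hw
        have hw1 : ∀ v : (Vt t S₀ : Finset ℕ), w v = b v := fun v => by
          rw [hw]
          exact dif_pos v.2
        have hw2 : ∀ n, n ∉ Vt t S₀ → w n = 0 := fun n hn => by
          rw [hw]
          exact dif_neg hn
        obtain ⟨k, hk⟩ := hβ w s' (by
          rcases hbs with ⟨v, hv⟩ | h
          · exact Or.inl ⟨v, Vt_sub t S₀ v.2, by rw [hw1]; exact hv⟩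
          · exact Or.inr h)
        refine ⟨k, ?_⟩
        rw [hur]
        intro h0
        apply hk
        refine Eq.trans ?_ h0
        congr 1
        rw [← hp₀β]
        have c1 : ∑ v : (insert 2 S₀ : Finset ℕ), w v * (lb S₀ (p₀ k)).1 v =
            ∑ v ∈ insert 2 S₀, w v * nr (p₀ k) v := by
          rw [← Finset.sum_coe_sort (insert 2 S₀)]
          rfl
        have c2 : ∑ v ∈ Vt t S₀, w v * nr (p₀ k) v = ∑ v ∈ insert 2 S₀, w v * nr (p₀ k) v :=
          sum_subset (Vt_sub t S₀) fun x _ hx => by rw [hw2 x hx, zero_mul]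
        have c3 : ∑ v : (Vt t S₀ : Finset ℕ), b v * NR r s r₀ (Sum.inl v) (Sum.inr k) =
            ∑ v ∈ Vt t S₀, w v * nr (p₀ k) v := by
          rw [← Finset.sum_coe_sort (Vt t S₀)]
          refine sum_congr rfl fun v _ => ?_
          rw [hw1]
          congr 1
          exact sy_ne r s (hpr p₀ hp₀ k).2
        exact (c1.trans c2.symm).trans c3.symm)
      (by
        have d1 : Fintype.card (Vt t S₀ : Finset ℕ) ≤ S₀.card + 1 := by
          rw [Fintype.card_coe]
          exact (card_le_card (Vt_sub t S₀)).trans (card_insert_le _ _)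
        have d2 : (univ.filter fun k : ι => ud s r₀ (Sum.inr k) = 1) =
            univ.filter fun i => τ i = 3 := by
          refine filter_congr fun k _ => ?_
          rw [hur]
          by_cases h : τ k = 3
          · rw [if_pos h]
            exact ⟨fun _ => h, fun _ => rfl⟩
          · rw [if_neg h]
            exact ⟨fun h' => absurd h' (by decide), fun h' => absurd h' h⟩
        rw [d2]
        omega)
    set Q : (ps ι → ZMod 2) → Prop := fun σ => Gv (pt (NR r s r₀) (sx (σ + sgm p₀))) with hQ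
    have h3 := hEQ ι C' X κ hκ
      (fun i => (Finset.card_le_card (Finset.filter_subset _ _)).trans (hCX i))
      (HB_sub hHB fun i q => lb S₀ q = β i) Q
    have h4 : ((Fintype.piFinset C).filter fun p => (fun i => lb S₀ (p i)) = β ∧
        Gd t r s (S₀ ∪ univ.image p)) = ((Fintype.piFinset C').filter fun p =>
          Q fun e => nr (p e.1.1) (p e.1.2)) := by
      rw [← hpi, Finset.filter_filter]
      refine Finset.filter_congr fun p hp => ?_
      refine and_congr_right fun hl => ?_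
      rw [Gd_iff t r s (rr_inj t (hinj p hp) (hd p hp) fun i => (hpr p hp i).2) (rr_im t)]
      have a0 := two_tuples t r s (hinj p hp) (hinj p₀ hp₀) (hpr p hp) (hpr p₀ hp₀)
        (hτ p hp) (hτ p₀ hp₀) fun i => by
          have a1 := congrFun hl i
          have a2 := congrFun hp₀β i
          exact a1.trans a2.symm
      show Gv (NR r s (rr t S₀ p)) ↔ Gv (pt (NR r s r₀) (sx (sgm p + sgm p₀)))
      rw [a0]
    have h5 : (((Fintype.piFinset C').card : ℕ) : ℝ) = ∏ j, ((C' j).card : ℝ) := by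
      rw [Fintype.card_piFinset]
      push_cast
      rfl
    rw [h4, hpi, h5]
    have hQc : (univ.filter Q).card =
        (univ.filter fun σ : ps ι → ZMod 2 => Gv (pt (NR r s r₀) (sx σ))).card := by
      refine card_bij (fun σ _ => σ + sgm p₀) ?_ ?_ ?_
      · intro σ hσ
        rw [mem_filter] at hσ ⊢
        exact ⟨mem_univ _, hσ.2⟩
      · intro σ _ σ' _ h
        exact add_right_cancel h
      · intro σ hσ
        refine ⟨σ - sgm p₀, ?_, sub_add_cancel _ _⟩
        rw [mem_filter] at hσ ⊢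
        refine ⟨mem_univ _, ?_⟩
        simp only [hQ, sub_add_cancel]
        exact hσ.2
    have h2' : |((univ.filter Q).card : ℝ) / 2 ^ (ps ι).card - eta| ≤ ε := by
      rw [hQc]
      exact h2
    set n : ℝ := (((Fintype.piFinset C').filter fun p =>
          Q fun e => nr (p e.1.1) (p e.1.2)).card : ℝ) with hn
    set q : ℝ := ((univ.filter Q).card : ℝ) / 2 ^ (ps ι).card with hq
    set P : ℝ := ∏ j, ((C' j).card : ℝ) with hP
    have hP0 : 0 ≤ P := Finset.prod_nonneg fun j _ => by positivity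
    have h6 : |n - eta * P| ≤ |n - q * P| + |q - eta| * P := by
      have h7 : n - eta * P = (n - q * P) + (q - eta) * P := by ring
      have h8 : |(q - eta) * P| = |q - eta| * P := by rw [abs_mul, abs_of_nonneg hP0]
      rw [h7, ← h8]
      exact abs_add_le _ _
    have h7 : |q - eta| * P ≤ ε * P := mul_le_mul_of_nonneg_right h2' hP0
    have h8 : |n - q * P| ≤ R := h3
    linarith
  -- sum over the labels
  set LL := univ.filter (fun β : ι → Lb S₀ => LN S₀ τ β) with hLL
  have hfib : ∀ T : (ι → ℕ) → Prop,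
      (((Fintype.piFinset C).filter fun p => Nd S₀ (univ.image p) ∧ T p).card : ℝ) =
      ∑ β ∈ LL, (((Fintype.piFinset C).filter fun p =>
        (fun i => lb S₀ (p i)) = β ∧ T p).card : ℝ) := by
    intro T
    rw [Finset.card_eq_sum_card_fiberwise (f := fun (p : ι → ℕ) (i : ι) => lb S₀ (p i))
      (t := LL) (by
        intro p hp
        rw [Finset.mem_coe, Finset.mem_filter] at hp
        rw [Finset.mem_coe, hLL, Finset.mem_filter]
        exact ⟨Finset.mem_univ _, (nd_iff (hτ p hp.1)).1 hp.2.1⟩)]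
    push_cast
    refine Finset.sum_congr rfl fun β hβ => ?_
    rw [hLL, Finset.mem_filter] at hβ
    congr 2
    ext p
    simp only [Finset.mem_filter]
    constructor
    · rintro ⟨⟨h3, h4, h4'⟩, h5⟩
      exact ⟨h3, h5, h4'⟩
    · rintro ⟨h3, h4, h5⟩
      refine ⟨⟨h3, ?_, h5⟩, h4⟩
      rw [nd_iff (hτ p h3), h4]
      exact hβ.2
  have hf1 := hfib fun p => Gd t r s (S₀ ∪ univ.image p)
  have hf2 := hfib fun _ => True
  simp only [and_true] at hf2
  rw [hf1, hf2, Finset.mul_sum, ← Finset.sum_sub_distrib]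
  refine (Finset.abs_sum_le_sum_abs _ _).trans ?_
  refine (Finset.sum_le_sum fun β hβ => h1 β (Finset.mem_filter.1 hβ).2).trans ?_
  rw [Finset.sum_add_distrib, ← Finset.mul_sum, Finset.sum_const, nsmul_eq_mul]
  have h5 : ((LL.card : ℕ) : ℝ) ≤ 2 ^ ((2 * S₀.card + 1) * Fintype.card ι) := by
    have h6 : LL.card ≤ Fintype.card (ι → Lb S₀) := Finset.card_le_univ _
    rw [Fintype.card_fun, Fintype.card_prod, Fintype.card_fun, Fintype.card_fun, ZMod.card,
      Fintype.card_coe, Fintype.card_coe, ← pow_add, ← pow_mul, card_insert_of_notMem h2S] at h6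
    have h7 : (S₀.card + 1 + S₀.card) * Fintype.card ι =
        (2 * S₀.card + 1) * Fintype.card ι := by
      ring
    rw [h7] at h6
    exact_mod_cast h6
  have h6 := mul_le_mul_of_nonneg_right h5 hR0
  rw [pow_add, mul_assoc]
  linarith

end Pool.Agent.N958.GB
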