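import Mathlib
import Pool.Agent.N909.TF.Tools

set_option autoImplicit false

/-! # Uniform law of large numbers for one-parameter families with two parameters -/

open MeasureTheory Filter Set
open scoped Topology

namespace Pool.Agent.N958.GB

open Pool.Agent.N909.TF

/-- the index -/
def ix (N : ℕ) : ℕ × ℕ × ℕ := (N.unpair.1, N.unpair.2.unpair.1, N.unpair.2.unpair.2)

lemma ix_lt {N : ℕ} (h2 : (ix N).2.1 ≤ (ix N).1) (h4 : (ix N).2.2 ≤ (ix N).1) :
    N < (((ix N).1 + 1) ^ 2 + 1) ^ 2 := by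
  unfold ix at h2 h4 ⊢
  simp only at h2 h4 ⊢
  set n := N.unpair.1
  set M := N.unpair.2 with hM
  have e1 : Nat.pair n M = N := Nat.pair_unpair N
  have e2 : Nat.pair M.unpair.1 M.unpair.2 = M := Nat.pair_unpair M
  have h5 := Nat.pair_lt_max_add_one_sq M.unpair.1 M.unpair.2
  rw [e2] at h5
  have h6 : M < (n + 1) ^ 2 := lt_of_lt_of_le h5
    (Nat.pow_le_pow_left (Nat.add_le_add_right (max_le h2 h4) 1) 2)
  have h7 := Nat.pair_lt_max_add_one_sq n M
  rw [e1] at h7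
  refine lt_of_lt_of_le h7 (Nat.pow_le_pow_left (Nat.add_le_add_right (max_le ?_ h6.le) 1) 2)
  nlinarith

lemma ix_log {N : ℕ} (h2 : (ix N).2.1 ≤ (ix N).1) (h4 : (ix N).2.2 ≤ (ix N).1)
    (hn : 4 ≤ (ix N).1) (hN : 1 ≤ N) : Real.log N ≤ 5 * Real.log (ix N).1 := by
  have h1 := ix_lt h2 h4
  set n := (ix N).1
  have h2 : ((n + 1) ^ 2 + 1) ^ 2 ≤ n ^ 5 := by
    have h3 : (n + 1) ^ 2 + 1 ≤ 2 * n ^ 2 := by nlinarith
    calc ((n + 1) ^ 2 + 1) ^ 2 ≤ (2 * n ^ 2) ^ 2 := Nat.pow_le_pow_left h3 2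
      _ = 4 * n ^ 4 := by ring
      _ ≤ n * n ^ 4 := Nat.mul_le_mul_right _ hn
      _ = n ^ 5 := by ring
  have h3 : (N : ℝ) ≤ (n : ℝ) ^ 5 := by exact_mod_cast (h1.le.trans h2)
  have hN0 : (0 : ℝ) < N := by exact_mod_cast hN
  calc Real.log N ≤ Real.log ((n : ℝ) ^ 5) := Real.log_le_log hN0 h3
    _ = 5 * Real.log n := by rw [Real.log_pow]; norm_num

lemma ix_pair (n a b : ℕ) : ix (Nat.pair n (Nat.pair a b)) = (n, a, b) := by
  unfold ix
  simp only [Nat.unpair_pair]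

/-- the admissible indices -/
def Gs (G : ℕ → ℕ → ℕ → Prop) : Set ℕ := {N | G (ix N).1 (ix N).2.1 (ix N).2.2}

lemma ix_tendsto (G : ℕ → ℕ → ℕ → Prop) (hG : ∀ n a b, G n a b → a ≤ n ∧ b ≤ n) :
    Tendsto (fun N : ℕ => (ix N).1) (atTop ⊓ 𝓟 (Gs G)) atTop := by
  rw [tendsto_atTop]
  intro B
  rw [eventually_inf_principal]
  filter_upwards [eventually_ge_atTop (((B + 1) ^ 2 + 1) ^ 2)] with N h1 h2
  by_contra hcon
  push Not at hcon
  have h3 := ix_lt (hG _ _ _ h2).1 (hG _ _ _ h2).2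
  have h4 : (((ix N).1 + 1) ^ 2 + 1) ^ 2 ≤ ((B + 1) ^ 2 + 1) ^ 2 := by
    gcongr
  omega

open Classical in
/-- the family -/
noncomputable def Jf (G : ℕ → ℕ → ℕ → Prop) (J : ℕ → ℕ → ℕ → Finset ℕ) (N : ℕ) : Finset ℕ :=
  if G (ix N).1 (ix N).2.1 (ix N).2.2 then J (ix N).1 (ix N).2.1 (ix N).2.2 else ∅

lemma Jf_mem {G : ℕ → ℕ → ℕ → Prop} {J : ℕ → ℕ → ℕ → Finset ℕ} {N u : ℕ} (h : u ∈ Jf G J N) :
    G (ix N).1 (ix N).2.1 (ix N).2.2 ∧ u ∈ J (ix N).1 (ix N).2.1 (ix N).2.2 := by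
  unfold Jf at h
  split_ifs at h with h1
  · exact ⟨h1, h⟩
  · exact absurd h (Finset.notMem_empty _)

variable {Ω : Type} {m0 : MeasurableSpace Ω} {μ : Measure Ω} [IsProbabilityMeasure μ]
  {ℱ : Filtration ℕ m0} {A : ℕ → Set Ω}

/-- **the uniform law** -/
theorem gen (hA : ∀ n, MeasurableSet[ℱ n] (A n)) (Q : ℕ) (hQ : 0 < Q)
    (hcop : ∀ n, ¬ Nat.Coprime n Q → A n = ∅)
    (hd : ∀ᵐ ω ∂μ, Tendsto (fun n : ℕ => Pool.Agent.R528.RM.dens μ ℱ A n ω * Real.log n)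
      (atTop ⊓ 𝓟 {n : ℕ | Nat.Coprime (n + 1) Q}) (𝓝 ((Q : ℝ) / Nat.totient Q)))
    (k D₀ : ℕ) (J : ℕ → ℕ → ℕ → Finset ℕ) (T : ℕ → ℕ → ℕ → Finset ℕ) (G : ℕ → ℕ → ℕ → Prop)
    (hG : ∀ n a b, G n a b → a ≤ n ∧ b ≤ n)
    (hk : ∀ n a b, G n a b → ∀ u ∈ J n a b, (T a b u).card = k)
    (h0 : ∀ n a b, G n a b → ∀ u ∈ J n a b, 0 ∉ T a b u)
    (hD : ∀ n a b, G n a b → ∀ t, ((J n a b).filter (fun u => t ∈ T a b u)).card ≤ D₀)
    (hT : ∀ n a b, G n a b → ∀ u ∈ J n a b, ∀ t ∈ T a b u, t ≤ 2 * n)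
    (hmany : ∀ n a b, G n a b → 12 * Q ≤ n →
      (n : ℝ) / (2 * Q) ≤ (cop (J n a b) (T a b) Q).card)
    (hfar : ∀ n a b Y, G n a b → ∀ S ⊆ J n a b, (∀ u ∈ S, ∃ t ∈ T a b u, t ≤ Y) →
      S.card ≤ 5 * Y + 2) :
    ∀ᵐ ω ∂μ, ∀ ε : ℝ, 0 < ε → ∀ᶠ n : ℕ in atTop, ∀ a b : ℕ, G n a b →
      |((cho A (J n a b) (T a b) ω).card : ℝ) -
        (cop (J n a b) (T a b) Q).card * (((Q : ℝ) / Nat.totient Q) / Real.log n) ^ k| ≤
      ε * ((cop (J n a b) (T a b) Q).card * (((Q : ℝ) / Nat.totient Q) / Real.log n) ^ k) := by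
  classical
  have hQ0 : (0 : ℝ) < Q := by exact_mod_cast hQ
  have hF : (atTop ⊓ 𝓟 (Gs G) : Filter ℕ) ≤ atTop := inf_le_left
  have hGev : ∀ᶠ N : ℕ in atTop ⊓ 𝓟 (Gs G), G (ix N).1 (ix N).2.1 (ix N).2.2 := by
    rw [eventually_inf_principal]
    exact Eventually.of_forall fun N h => h
  have hti := ix_tendsto G hG
  have hL : Tendsto (fun N : ℕ => Real.log ((ix N).1 : ℝ)) (atTop ⊓ 𝓟 (Gs G)) atTop :=
    (Real.tendsto_log_atTop.comp tendsto_natCast_atTop_atTop).comp hti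
  have hJf : ∀ N, G (ix N).1 (ix N).2.1 (ix N).2.2 → Jf G J N = J (ix N).1 (ix N).2.1 (ix N).2.2 := by
    intro N h
    unfold Jf
    rw [if_pos h]
  have hmany' : ∀ᶠ N : ℕ in atTop ⊓ 𝓟 (Gs G), ((ix N).1 : ℝ) / (2 * Q) ≤
      (cop (Jf G J N) (T (ix N).2.1 (ix N).2.2) Q).card := by
    filter_upwards [hGev, hti.eventually_ge_atTop (12 * Q)] with N g1 g2
    rw [hJf N g1]
    exact hmany _ _ _ g1 g2
  have h := sieved (μ := μ) hA Q hQ hcop hd k (Jf G J) (fun N => T (ix N).2.1 (ix N).2.2)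
    (fun _ => D₀ + 1)
    (fun N u hu => hk _ _ _ (Jf_mem hu).1 u (Jf_mem hu).2)
    (fun N u hu => h0 _ _ _ (Jf_mem hu).1 u (Jf_mem hu).2)
    (fun N t => by
      by_cases hN : G (ix N).1 (ix N).2.1 (ix N).2.2
      · rw [hJf N hN]
        exact (hD _ _ _ hN t).trans (Nat.le_succ _)
      · unfold Jf
        rw [if_neg hN, Finset.filter_empty, Finset.card_empty]
        exact Nat.zero_le _)
    (atTop ⊓ 𝓟 (Gs G)) hF (fun N => Real.log ((ix N).1 : ℝ)) hL ?_ ?_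
  · filter_upwards [h] with ω hω ε hε
    have h1 := hω ε hε
    rw [eventually_inf_principal] at h1
    obtain ⟨N0, hN0⟩ := eventually_atTop.1 h1
    filter_upwards [eventually_ge_atTop N0] with n hn a b hab
    have h4 := hN0 (Nat.pair n (Nat.pair a b)) (hn.trans (Nat.left_le_pair _ _)) (by
      show G _ _ _
      rw [ix_pair]
      exact hab)
    have h5 : Jf G J (Nat.pair n (Nat.pair a b)) = J n a b := by
      have h6 := hJf (Nat.pair n (Nat.pair a b)) (by rw [ix_pair]; exact hab)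
      rw [h6, ix_pair]
    rw [h5, ix_pair] at h4
    exact h4
  · intro δ hδ
    set d : ℝ := min δ (1 / 2) with hd'
    have hd0 : 0 < d := by rw [hd']; positivity
    have hd1 : d ≤ 1 / 2 := min_le_right _ _
    have e1 := hti.eventually (near_log 2 d hd0)
    have e2 := hti.eventually
      ((pow_log 1 d one_pos hd0 k).eventually_ge_atTop (14 * Q / δ))
    filter_upwards [hGev, hmany', e1, e2, hti.eventually_gt_atTop 1] with N g1 g2 g3 g4 g5
    rw [hJf N g1] at g2 ⊢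
    set n := (ix N).1
    set a := (ix N).2.1
    set b := (ix N).2.2
    have hn : (1 : ℝ) < n := by exact_mod_cast g5
    have hn0 : (0 : ℝ) < n := by linarith
    have hL0 : 0 < Real.log n := Real.log_pos hn
    set y : ℝ := (n : ℝ) ^ (1 - d) with hy
    have hy1 : 1 ≤ y := Real.one_le_rpow hn.le (by linarith)
    have h1 : (far (cop (J n a b) (T a b) Q) (T a b) (Real.log n) δ).card ≤ 5 * ⌊y⌋₊ + 2 := by
      refine hfar n a b ⌊y⌋₊ g1 _ ?_ ?_
      · intro u hu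
        unfold far cop at hu
        rw [Finset.mem_filter, Finset.mem_filter] at hu
        exact hu.1.1
      · intro u hu
        unfold far cop at hu
        rw [Finset.mem_filter, Finset.mem_filter] at hu
        obtain ⟨⟨hu1, hu2⟩, t, ht, hf⟩ := hu
        refine ⟨t, ht, ?_⟩
        by_contra hcon
        push Not at hcon
        have ht1 : y ≤ t := by
          have := (Nat.lt_floor_add_one y).le
          have h6 : ((⌊y⌋₊ + 1 : ℕ) : ℝ) ≤ t := by exact_mod_cast hcon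
          push_cast at h6
          linarith
        have ht2 : t ≤ 2 * n := hT n a b g1 u hu1 t ht
        have h7 := g3 t ht1 (by exact_mod_cast ht2)
        have h8 : d * Real.log n ≤ δ * Real.log n := mul_le_mul_of_nonneg_right (min_le_left _ _) hL0.le
        linarith
    have h2 : ((far (cop (J n a b) (T a b) Q) (T a b) (Real.log n) δ).card : ℝ) ≤ 7 * y := by
      have h3 : ((far (cop (J n a b) (T a b) Q) (T a b) (Real.log n) δ).card : ℝ) ≤
          5 * (⌊y⌋₊ : ℝ) + 2 := by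
        exact_mod_cast h1
      have h4 := Nat.floor_le (show (0 : ℝ) ≤ y by linarith)
      linarith
    have h3 : 14 * Q / δ * Real.log n ^ k ≤ (n : ℝ) ^ d := by
      rw [one_mul, le_div_iff₀ (by positivity)] at g4
      exact g4
    have h4 : y * (n : ℝ) ^ d = n := by
      rw [hy, ← Real.rpow_add hn0]
      have : (1 - d + d : ℝ) = 1 := by ring
      rw [this, Real.rpow_one]
    calc ((far (cop (J n a b) (T a b) Q) (T a b) (Real.log n) δ).card : ℝ) * Real.log n ^ k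
        ≤ 7 * y * Real.log n ^ k := by gcongr
      _ = δ / (2 * Q) * (y * (14 * Q / δ * Real.log n ^ k)) := by
          field_simp
          ring
      _ ≤ δ / (2 * Q) * (y * (n : ℝ) ^ d) := by gcongr
      _ = δ * ((n : ℝ) / (2 * Q)) := by
          rw [h4]
          ring
      _ ≤ δ * (cop (J n a b) (T a b) Q).card := by gcongr
  · have e1 := (pow_log (1 / (10 * (D₀ + 1) * Q)) 1 (by positivity) one_pos (k + 1)).comp hti
    refine tendsto_atTop_mono' _ ?_ e1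
    filter_upwards [hGev, hmany', hti.eventually_ge_atTop 4, (eventually_gt_atTop 1).filter_mono hF]
      with N g1 g2 g3 g4
    have h1 := ix_log (hG _ _ _ g1).1 (hG _ _ _ g1).2 g3 g4.le
    simp only [Function.comp_apply]
    set n := (ix N).1
    have hn : (1 : ℝ) < n := by
      have : (4 : ℝ) ≤ n := by exact_mod_cast g3
      linarith
    have hN : (1 : ℝ) < N := by exact_mod_cast g4
    have hL0 : 0 < Real.log n := Real.log_pos hn
    have hLN : 0 < Real.log N := Real.log_pos hN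
    rw [Real.rpow_one]
    calc 1 / (10 * ((D₀ : ℝ) + 1) * Q) * n / Real.log n ^ (k + 1)
        = (n / (2 * Q)) / (((D₀ : ℝ) + 1) * (5 * Real.log n) * Real.log n ^ k) := by
          rw [pow_succ]
          field_simp
          ring
      _ ≤ (n / (2 * Q)) / (((D₀ + 1 : ℕ) : ℝ) * Real.log N * Real.log n ^ k) := by
          push_cast
          gcongr
      _ ≤ _ := by gcongr

/-- the positive version -/
theorem gen_pos (hA : ∀ n, MeasurableSet[ℱ n] (A n)) (Q : ℕ) (hQ : 0 < Q)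
    (hcop : ∀ n, ¬ Nat.Coprime n Q → A n = ∅)
    (hd : ∀ᵐ ω ∂μ, Tendsto (fun n : ℕ => Pool.Agent.R528.RM.dens μ ℱ A n ω * Real.log n)
      (atTop ⊓ 𝓟 {n : ℕ | Nat.Coprime (n + 1) Q}) (𝓝 ((Q : ℝ) / Nat.totient Q)))
    (k D₀ : ℕ) (J : ℕ → ℕ → ℕ → Finset ℕ) (T : ℕ → ℕ → ℕ → Finset ℕ) (G : ℕ → ℕ → ℕ → Prop)
    (hG : ∀ n a b, G n a b → a ≤ n ∧ b ≤ n)
    (hk : ∀ n a b, G n a b → ∀ u ∈ J n a b, (T a b u).card = k)
    (h0 : ∀ n a b, G n a b → ∀ u ∈ J n a b, 0 ∉ T a b u)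
    (hD : ∀ n a b, G n a b → ∀ t, ((J n a b).filter (fun u => t ∈ T a b u)).card ≤ D₀)
    (hT : ∀ n a b, G n a b → ∀ u ∈ J n a b, ∀ t ∈ T a b u, t ≤ 2 * n)
    (hmany : ∀ n a b, G n a b → 12 * Q ≤ n →
      (n : ℝ) / (2 * Q) ≤ (cop (J n a b) (T a b) Q).card)
    (hfar : ∀ n a b Y, G n a b → ∀ S ⊆ J n a b, (∀ u ∈ S, ∃ t ∈ T a b u, t ≤ Y) →
      S.card ≤ 5 * Y + 2) :
    ∀ᵐ ω ∂μ, ∀ᶠ n : ℕ in atTop, ∀ a b : ℕ, G n a b →
      ∃ u ∈ J n a b, ∀ t ∈ T a b u, ω ∈ A t := by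
  classical
  have hQ0 : (0 : ℝ) < Q := by exact_mod_cast hQ
  filter_upwards [gen hA Q hQ hcop hd k D₀ J T G hG hk h0 hD hT hmany hfar] with ω hω
  filter_upwards [hω (1 / 2) (by norm_num), eventually_ge_atTop (12 * Q), eventually_gt_atTop 1]
    with n g1 g2 g3 a b hab
  have hn : (1 : ℝ) < n := by exact_mod_cast g3
  have hL0 : 0 < Real.log n := Real.log_pos hn
  have h1 := (abs_le.1 (g1 a b hab)).1
  have h2 := hmany n a b hab g2
  have hc := cQ_ge Q hQ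
  have h3 : 0 < ((cop (J n a b) (T a b) Q).card : ℝ) := lt_of_lt_of_le (by positivity) h2
  have h4 : 0 < ((cop (J n a b) (T a b) Q).card : ℝ) * (((Q : ℝ) / Nat.totient Q) / Real.log n) ^ k := by
    positivity
  have h5 : (0 : ℝ) < (cho A (J n a b) (T a b) ω).card := by linarith
  obtain ⟨u, hu⟩ := Finset.card_pos.1 (by exact_mod_cast h5)
  unfold cho at hu
  rw [Finset.mem_filter] at hu
  exact ⟨u, hu.1, hu.2⟩

end Pool.Agent.N958.GB
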