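import Mathlib
import Pool.Agent.N958.GB.Gen

set_option autoImplicit false

/-! # Common neighbours and special edges in Goldbach graphs of random sets -/

open MeasureTheory Filter Set
open scoped Topology

namespace Pool.Agent.N958.GB

open Pool.Agent.N909.TF

/-- many admissible values -/
lemma many_gen (Q n : ℕ) (hQ : 6 ≤ Q) (hn : 12 * Q ≤ n) (J : Finset ℕ) (T : ℕ → Finset ℕ) (x : ℕ)
    (hx : ∀ u, u ≡ x [MOD Q] → ∀ t ∈ T u, Nat.Coprime t Q) (E : Finset ℕ) (hE : E.card ≤ 4)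
    (hJ : ∀ u ∈ Finset.Ioc 0 (n - 3), u ∉ J → u ∈ E) :
    (n : ℝ) / (2 * Q) ≤ (cop J T Q).card := by
  classical
  have hQ' : 0 < Q := by omega
  have h4 := many_class Q x (n - 3) hQ'
  have h5 : ((Finset.Ioc 0 (n - 3)).filter (fun m => m ≡ x [MOD Q])) ⊆ cop J T Q ∪ E := by
    intro u hu
    rw [Finset.mem_filter] at hu
    rw [Finset.mem_union]
    by_cases h6 : u ∈ J
    · left
      unfold cop
      rw [Finset.mem_filter]
      exact ⟨h6, hx u hu.2⟩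
    · exact Or.inr (hJ u hu.1 h6)
  have h6 : (n - 3) / Q ≤ (cop J T Q).card + 4 :=
    h4.trans ((Finset.card_le_card h5).trans ((Finset.card_union_le _ _).trans
      (Nat.add_le_add_left hE _)))
  have h7 := Nat.lt_div_mul_add (a := n - 3) hQ'
  have h8 : (n - 3) / Q * Q ≤ ((cop J T Q).card + 4) * Q := Nat.mul_le_mul_right _ h6
  have h9 : n ≤ (cop J T Q).card * (2 * Q) := by
    have e : ((cop J T Q).card + 4) * Q = (cop J T Q).card * Q + 4 * Q := by ring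
    have e2 : (cop J T Q).card * (2 * Q) = 2 * ((cop J T Q).card * Q) := by ring
    omega
  have hQ0 : (0 : ℝ) < Q := by exact_mod_cast hQ'
  rw [div_le_iff₀ (by positivity)]
  exact_mod_cast h9

lemma loc (Q : ℕ) (hQ : 0 < Q) (T : ℕ → Finset ℕ)
    (h : ∀ l, l.Prime → l ∣ Q → ∃ r, ∀ u, u ≡ r [MOD l] → ∀ t ∈ T u, ¬ l ∣ t) :
    ∃ x, ∀ u, u ≡ x [MOD Q] → ∀ t ∈ T u, Nat.Coprime t Q := by
  have h' : ∀ l : ℕ, ∃ r : ℕ, l.Prime → l ∣ Q → ∀ u, u ≡ r [MOD l] → ∀ t ∈ T u, ¬ l ∣ t := by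
    intro l
    by_cases hl : l.Prime ∧ l ∣ Q
    · obtain ⟨r, hr⟩ := h l hl.1 hl.2
      exact ⟨r, fun _ _ => hr⟩
    · exact ⟨0, fun h1 h2 => absurd ⟨h1, h2⟩ hl⟩
  choose r hr using h'
  obtain ⟨x, hx⟩ := crt_primes Q r
  refine ⟨x, fun u hu t ht => ?_⟩
  rw [coprime_iff_primes]
  intro l hl hlQ
  exact hr l hl hlQ u (hx u hu l hl hlQ hQ.ne') t ht

lemma prime_cases {l : ℕ} (hl : l.Prime) : l = 2 ∨ l = 3 ∨ 5 ≤ l := by
  have h1 := hl.two_le
  have h4 : l ≠ 4 := by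
    rintro rfl
    exact absurd hl (by decide)
  omega

lemma res5 {l : ℕ} (hl : l.Prime) (h5 : 5 ≤ l) (s : Finset (ZMod l)) (hs : s.card ≤ 4) :
    ∃ r : ℕ, ∀ u : ℕ, u ≡ r [MOD l] → (u : ZMod l) ∉ s := by
  have : NeZero l := ⟨hl.ne_zero⟩
  have hcard : s.card < (Finset.univ : Finset (ZMod l)).card := by
    rw [Finset.card_univ, ZMod.card]
    omega
  obtain ⟨x, -, hx⟩ := Finset.exists_mem_notMem_of_card_lt_card hcard
  refine ⟨x.val, fun u hu => ?_⟩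
  rw [(ZMod.natCast_eq_natCast_iff _ _ _).2 hu, ZMod.natCast_val, ZMod.cast_id]
  exact hx

lemma dvd_dist {l a u : ℕ} (h : l ∣ Nat.dist a u) : (u : ZMod l) = a := by
  unfold Nat.dist at h
  rcases le_total a u with h1 | h1
  · rw [Nat.sub_eq_zero_of_le h1, zero_add] at h
    have h2 : ((u - a : ℕ) : ZMod l) = 0 := (ZMod.natCast_eq_zero_iff _ _).2 h
    rw [Nat.cast_sub h1, sub_eq_zero] at h2
    exact h2
  · rw [Nat.sub_eq_zero_of_le h1, add_zero] at h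
    have h2 : ((a - u : ℕ) : ZMod l) = 0 := (ZMod.natCast_eq_zero_iff _ _).2 h
    rw [Nat.cast_sub h1, sub_eq_zero] at h2
    exact h2.symm

lemma dvd_sum {l a u : ℕ} (h : l ∣ a + u) : (u : ZMod l) = -a := by
  have h5 : ((a + u : ℕ) : ZMod l) = 0 := (ZMod.natCast_eq_zero_iff _ _).2 h
  push_cast at h5
  linear_combination h5

lemma dvd_two {l u : ℕ} (hl : l.Prime) (h5 : 5 ≤ l) (h : l ∣ 2 * u + 3) :
    (u : ZMod l) = -3 * 2⁻¹ := by
  have : Fact l.Prime := ⟨hl⟩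
  have h5' : ((2 * u + 3 : ℕ) : ZMod l) = 0 := (ZMod.natCast_eq_zero_iff _ _).2 h
  push_cast at h5'
  have h2 : (2 : ZMod l) ≠ 0 := by
    have : ((2 : ℕ) : ZMod l) ≠ 0 := by
      rw [Ne, ZMod.natCast_eq_zero_iff]
      intro h6
      have := Nat.le_of_dvd (by norm_num) h6
      omega
    exact_mod_cast this
  field_simp
  linear_combination h5'

/-! ### Common neighbours -/

/-- the possible common neighbours -/
def fam (n a b : ℕ) : Finset ℕ :=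
  (Finset.Ioc 0 n).filter (fun u => 2 * u ≠ a + b ∧ 2 * u ≠ Nat.dist a b ∧ u ≠ a ∧ u ≠ b)

/-- the numbers which have to be chosen -/
def tup (a b u : ℕ) : Finset ℕ := {a + u, Nat.dist a u, b + u, Nat.dist b u}

lemma mem_fam {n a b u : ℕ} (hu : u ∈ fam n a b) : 1 ≤ u ∧ u ≤ n ∧ 2 * u ≠ a + b ∧
    2 * u ≠ Nat.dist a b ∧ u ≠ a ∧ u ≠ b := by
  unfold fam at hu
  rw [Finset.mem_filter, Finset.mem_Ioc] at hu
  obtain ⟨⟨h1, h2⟩, h3, h4, h5, h6⟩ := hu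
  exact ⟨h1, h2, h3, h4, h5, h6⟩

lemma tup_card {n a b u : ℕ} (ha : 1 ≤ a) (hb : 1 ≤ b) (hab : a ≠ b) (hu : u ∈ fam n a b) :
    (tup a b u).card = 4 := by
  obtain ⟨h1, h2, h3, h4, h5, h6⟩ := mem_fam hu
  unfold Nat.dist at h4
  unfold tup Nat.dist
  rw [Finset.card_insert_of_notMem, Finset.card_insert_of_notMem, Finset.card_insert_of_notMem,
    Finset.card_singleton]
  · rw [Finset.mem_singleton]
    omega
  · rw [Finset.mem_insert, Finset.mem_singleton]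
    omega
  · rw [Finset.mem_insert, Finset.mem_insert, Finset.mem_singleton]
    omega

lemma tup_card0 {n b u : ℕ} (hb : 1 ≤ b) (hu : u ∈ fam n 0 b) : (tup 0 b u).card = 3 := by
  obtain ⟨h1, h2, h3, h4, h5, h6⟩ := mem_fam hu
  have e : tup 0 b u = {u, b + u, Nat.dist b u} := by
    ext t
    unfold tup Nat.dist
    simp only [Finset.mem_insert, Finset.mem_singleton]
    omega
  rw [e]
  unfold Nat.dist
  rw [Finset.card_insert_of_notMem, Finset.card_insert_of_notMem, Finset.card_singleton]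
  · rw [Finset.mem_singleton]
    omega
  · rw [Finset.mem_insert, Finset.mem_singleton]
    omega

lemma tup_zero {n a b u : ℕ} (hu : u ∈ fam n a b) : 0 ∉ tup a b u := by
  obtain ⟨h1, h2, h3, h4, h5, h6⟩ := mem_fam hu
  unfold tup Nat.dist
  simp only [Finset.mem_insert, Finset.mem_singleton]
  omega

lemma mult (n a b t : ℕ) : ((fam n a b).filter (fun u => t ∈ tup a b u)).card ≤ 6 := by
  refine (Finset.card_le_card (t := {t - a, t + a, a - t, t - b, t + b, b - t}) ?_).trans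
    Finset.card_le_six
  intro u hu
  rw [Finset.mem_filter] at hu
  have h := hu.2
  unfold tup Nat.dist at h
  simp only [Finset.mem_insert, Finset.mem_singleton] at h ⊢
  omega

lemma tup_le {n a b u t : ℕ} (ha : a ≤ n) (hb : b ≤ n) (hu : u ∈ fam n a b) (ht : t ∈ tup a b u) :
    t ≤ 2 * n := by
  obtain ⟨h1, h2, -⟩ := mem_fam hu
  unfold tup Nat.dist at ht
  simp only [Finset.mem_insert, Finset.mem_singleton] at ht
  omega

lemma fam_far (n a b Y : ℕ) (S : Finset ℕ) (hS : S ⊆ fam n a b)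
    (h : ∀ u ∈ S, ∃ t ∈ tup a b u, t ≤ Y) : S.card ≤ 5 * Y + 2 := by
  have h1 : S ⊆ Finset.Ioc 0 Y ∪ (Finset.Icc (a - Y) (a + Y) ∪ Finset.Icc (b - Y) (b + Y)) := by
    intro u hu
    obtain ⟨t, ht, htY⟩ := h u hu
    obtain ⟨h1, h2, -⟩ := mem_fam (hS hu)
    unfold tup Nat.dist at ht
    simp only [Finset.mem_insert, Finset.mem_singleton] at ht
    rw [Finset.mem_union, Finset.mem_union, Finset.mem_Ioc, Finset.mem_Icc, Finset.mem_Icc]
    omega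
  have h2 := (Finset.card_le_card h1).trans ((Finset.card_union_le _ _).trans
      (Nat.add_le_add_left (Finset.card_union_le _ _) _))
  rw [Nat.card_Ioc, Nat.card_Icc, Nat.card_Icc] at h2
  omega

lemma tup_loc (Q a b : ℕ) (hQ : 0 < Q) (h2 : a % 2 = b % 2) (h3 : 3 ∣ a ↔ 3 ∣ b) :
    ∃ x, ∀ u, u ≡ x [MOD Q] → ∀ t ∈ tup a b u, Nat.Coprime t Q := by
  refine loc Q hQ _ fun l hl _ => ?_
  rcases prime_cases hl with rfl | rfl | h5
  · refine ⟨a + 1, fun u hu t ht => ?_⟩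
    have hu' : u % 2 = (a + 1) % 2 := hu
    unfold tup Nat.dist at ht
    simp only [Finset.mem_insert, Finset.mem_singleton] at ht
    omega
  · by_cases ha : 3 ∣ a
    · have hb := h3.1 ha
      refine ⟨1, fun u hu t ht => ?_⟩
      have hu' : u % 3 = 1 % 3 := hu
      unfold tup Nat.dist at ht
      simp only [Finset.mem_insert, Finset.mem_singleton] at ht
      omega
    · have hb : ¬ 3 ∣ b := fun h => ha (h3.2 h)
      refine ⟨0, fun u hu t ht => ?_⟩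
      have hu' : u % 3 = 0 % 3 := hu
      unfold tup Nat.dist at ht
      simp only [Finset.mem_insert, Finset.mem_singleton] at ht
      omega
  · classical
    obtain ⟨r, hr⟩ := res5 hl h5 {(a : ZMod l), -(a : ZMod l), (b : ZMod l), -(b : ZMod l)}
      Finset.card_le_four
    refine ⟨r, fun u hu t ht h => hr u hu ?_⟩
    unfold tup at ht
    simp only [Finset.mem_insert, Finset.mem_singleton] at ht ⊢
    rcases ht with rfl | rfl | rfl | rfl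
    · exact Or.inr (Or.inl (dvd_sum h))
    · exact Or.inl (dvd_dist h)
    · exact Or.inr (Or.inr (Or.inr (dvd_sum h)))
    · exact Or.inr (Or.inr (Or.inl (dvd_dist h)))

lemma fam_many (Q n a b : ℕ) (hQ : 6 ≤ Q) (hn : 12 * Q ≤ n) (h2 : a % 2 = b % 2) (h3 : 3 ∣ a ↔ 3 ∣ b) :
    (n : ℝ) / (2 * Q) ≤ (cop (fam n a b) (tup a b) Q).card := by
  obtain ⟨x, hx⟩ := tup_loc Q a b (by omega) h2 h3
  refine many_gen Q n hQ hn _ _ x hx {(a + b) / 2, Nat.dist a b / 2, a, b} Finset.card_le_four ?_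
  intro u hu hu'
  rw [Finset.mem_Ioc] at hu
  simp only [Finset.mem_insert, Finset.mem_singleton]
  by_contra hcon
  push Not at hcon
  apply hu'
  unfold fam
  rw [Finset.mem_filter, Finset.mem_Ioc]
  refine ⟨by omega, ?_, ?_, hcon.2.2.1, hcon.2.2.2⟩
  · omega
  · omega

/-! ### Special edges -/

/-- the possible special edges `v, v + 3` at the distance one from `a` -/
def fam2 (n a : ℕ) : Finset ℕ :=
  (Finset.Ioc 0 (n - 3)).filter (fun v => v ≠ a ∧ v + 3 ≠ a ∧ 3 * v + 3 ≠ a)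

/-- the numbers which have to be chosen -/
def tup2 (a v : ℕ) : Finset ℕ := {a + v, Nat.dist a v, 2 * v + 3}

lemma mem_fam2 {n a v : ℕ} (hv : v ∈ fam2 n a) : 1 ≤ v ∧ v + 3 ≤ n ∧ v ≠ a ∧ v + 3 ≠ a ∧
    3 * v + 3 ≠ a := by
  unfold fam2 at hv
  rw [Finset.mem_filter, Finset.mem_Ioc] at hv
  obtain ⟨⟨h1, h2⟩, h3, h4, h5⟩ := hv
  exact ⟨h1, by omega, h3, h4, h5⟩

lemma tup2_card {n a v : ℕ} (ha : 1 ≤ a) (hv : v ∈ fam2 n a) : (tup2 a v).card = 3 := by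
  obtain ⟨h1, h2, h3, h4, h5⟩ := mem_fam2 hv
  unfold tup2 Nat.dist
  rw [Finset.card_insert_of_notMem, Finset.card_insert_of_notMem, Finset.card_singleton]
  · rw [Finset.mem_singleton]
    omega
  · rw [Finset.mem_insert, Finset.mem_singleton]
    omega

lemma tup2_card0 {n v : ℕ} (hv : v ∈ fam2 n 0) : (tup2 0 v).card = 2 := by
  obtain ⟨h1, h2, h3, h4, h5⟩ := mem_fam2 hv
  have e : tup2 0 v = {v, 2 * v + 3} := by
    ext t
    unfold tup2 Nat.dist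
    simp only [Finset.mem_insert, Finset.mem_singleton]
    omega
  rw [e, Finset.card_insert_of_notMem, Finset.card_singleton]
  rw [Finset.mem_singleton]
  omega

lemma tup2_zero {n a v : ℕ} (hv : v ∈ fam2 n a) : 0 ∉ tup2 a v := by
  obtain ⟨h1, h2, h3, h4, h5⟩ := mem_fam2 hv
  unfold tup2 Nat.dist
  simp only [Finset.mem_insert, Finset.mem_singleton]
  omega

lemma mult2 (n a t : ℕ) : ((fam2 n a).filter (fun v => t ∈ tup2 a v)).card ≤ 6 := by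
  refine (Finset.card_le_card (t := {t - a, t + a, a - t, (t - 3) / 2}) ?_).trans
    (Finset.card_le_four.trans (by norm_num))
  intro u hu
  rw [Finset.mem_filter] at hu
  have h := hu.2
  unfold tup2 Nat.dist at h
  simp only [Finset.mem_insert, Finset.mem_singleton] at h ⊢
  omega

lemma tup2_le {n a v t : ℕ} (ha : a ≤ n) (hv : v ∈ fam2 n a) (ht : t ∈ tup2 a v) : t ≤ 2 * n := by
  obtain ⟨h1, h2, -⟩ := mem_fam2 hv
  unfold tup2 Nat.dist at ht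
  simp only [Finset.mem_insert, Finset.mem_singleton] at ht
  omega

lemma fam2_far (n a Y : ℕ) (S : Finset ℕ) (hS : S ⊆ fam2 n a)
    (h : ∀ u ∈ S, ∃ t ∈ tup2 a u, t ≤ Y) : S.card ≤ 5 * Y + 2 := by
  have h1 : S ⊆ Finset.Ioc 0 Y ∪ Finset.Icc (a - Y) (a + Y) := by
    intro u hu
    obtain ⟨t, ht, htY⟩ := h u hu
    obtain ⟨h1, h2, -⟩ := mem_fam2 (hS hu)
    unfold tup2 Nat.dist at ht
    simp only [Finset.mem_insert, Finset.mem_singleton] at ht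
    rw [Finset.mem_union, Finset.mem_Ioc, Finset.mem_Icc]
    omega
  have h2 := (Finset.card_le_card h1).trans (Finset.card_union_le _ _)
  rw [Nat.card_Ioc, Nat.card_Icc] at h2
  omega

lemma tup2_loc (Q a : ℕ) (hQ : 0 < Q) (h3 : 3 ∣ a) :
    ∃ x, ∀ u, u ≡ x [MOD Q] → ∀ t ∈ tup2 a u, Nat.Coprime t Q := by
  refine loc Q hQ _ fun l hl _ => ?_
  rcases prime_cases hl with rfl | rfl | h5
  · refine ⟨a + 1, fun u hu t ht => ?_⟩
    have hu' : u % 2 = (a + 1) % 2 := hu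
    unfold tup2 Nat.dist at ht
    simp only [Finset.mem_insert, Finset.mem_singleton] at ht
    omega
  · refine ⟨1, fun u hu t ht => ?_⟩
    have hu' : u % 3 = 1 % 3 := hu
    unfold tup2 Nat.dist at ht
    simp only [Finset.mem_insert, Finset.mem_singleton] at ht
    omega
  · classical
    obtain ⟨r, hr⟩ := res5 hl h5 {(a : ZMod l), -(a : ZMod l), -3 * 2⁻¹}
      (Finset.card_le_three.trans (by norm_num))
    refine ⟨r, fun u hu t ht h => hr u hu ?_⟩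
    unfold tup2 at ht
    simp only [Finset.mem_insert, Finset.mem_singleton] at ht ⊢
    rcases ht with rfl | rfl | rfl
    · exact Or.inr (Or.inl (dvd_sum h))
    · exact Or.inl (dvd_dist h)
    · exact Or.inr (Or.inr (dvd_two hl h5 h))

lemma fam2_many (Q n a : ℕ) (hQ : 6 ≤ Q) (hn : 12 * Q ≤ n) (h3 : 3 ∣ a) :
    (n : ℝ) / (2 * Q) ≤ (cop (fam2 n a) (tup2 a) Q).card := by
  obtain ⟨x, hx⟩ := tup2_loc Q a (by omega) h3
  refine many_gen Q n hQ hn _ _ x hx {a, a - 3, (a - 3) / 3} (Finset.card_le_three.trans (by norm_num)) ?_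
  intro u hu hu'
  simp only [Finset.mem_insert, Finset.mem_singleton]
  by_contra hcon
  push Not at hcon
  apply hu'
  unfold fam2
  rw [Finset.mem_filter]
  refine ⟨hu, hcon.1, ?_, ?_⟩
  · omega
  · omega

variable {Ω : Type} {m0 : MeasurableSpace Ω} {μ : Measure Ω} [IsProbabilityMeasure μ]
  {ℱ : Filtration ℕ m0} {A : ℕ → Set Ω}

/-- **the law for common neighbours** -/
theorem common (hA : ∀ n, MeasurableSet[ℱ n] (A n)) (Q : ℕ) (hQ : 6 ≤ Q)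
    (hcop : ∀ n, ¬ Nat.Coprime n Q → A n = ∅)
    (hd : ∀ᵐ ω ∂μ, Tendsto (fun n : ℕ => Pool.Agent.R528.RM.dens μ ℱ A n ω * Real.log n)
      (atTop ⊓ 𝓟 {n : ℕ | Nat.Coprime (n + 1) Q}) (𝓝 ((Q : ℝ) / Nat.totient Q))) :
    ∀ᵐ ω ∂μ, ∀ ε : ℝ, 0 < ε → ∀ᶠ n : ℕ in atTop, ∀ a b : ℕ,
      (1 ≤ a ∧ a ≤ n ∧ 1 ≤ b ∧ b ≤ n ∧ a ≠ b ∧ a % 2 = b % 2 ∧ (3 ∣ a ↔ 3 ∣ b)) →
      |((cho A (fam n a b) (tup a b) ω).card : ℝ) -
        (cop (fam n a b) (tup a b) Q).card * (((Q : ℝ) / Nat.totient Q) / Real.log n) ^ 4| ≤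
      ε * ((cop (fam n a b) (tup a b) Q).card * (((Q : ℝ) / Nat.totient Q) / Real.log n) ^ 4) :=
  gen hA Q (by omega) hcop hd 4 6 fam tup
    (fun n a b => 1 ≤ a ∧ a ≤ n ∧ 1 ≤ b ∧ b ≤ n ∧ a ≠ b ∧ a % 2 = b % 2 ∧ (3 ∣ a ↔ 3 ∣ b))
    (fun n a b h => ⟨h.2.1, h.2.2.2.1⟩)
    (fun n a b h u hu => tup_card h.1 h.2.2.1 h.2.2.2.2.1 hu)
    (fun n a b h u hu => tup_zero hu)
    (fun n a b h t => mult n a b t)
    (fun n a b h u hu t ht => tup_le h.2.1 h.2.2.2.1 hu ht)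
    (fun n a b h hn => fam_many Q n a b hQ hn h.2.2.2.2.2.1 h.2.2.2.2.2.2)
    (fun n a b Y h S hS hS' => fam_far n a b Y S hS hS')

/-- **existence of common neighbours and of special edges** -/
theorem exist (hA : ∀ n, MeasurableSet[ℱ n] (A n)) (Q : ℕ) (hQ : 6 ≤ Q)
    (hcop : ∀ n, ¬ Nat.Coprime n Q → A n = ∅)
    (hd : ∀ᵐ ω ∂μ, Tendsto (fun n : ℕ => Pool.Agent.R528.RM.dens μ ℱ A n ω * Real.log n)
      (atTop ⊓ 𝓟 {n : ℕ | Nat.Coprime (n + 1) Q}) (𝓝 ((Q : ℝ) / Nat.totient Q))) :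
    ∀ᵐ ω ∂μ, ∀ᶠ n : ℕ in atTop,
      (∀ a b : ℕ, a ≤ n → b ≤ n → a ≠ b → a % 2 = b % 2 → (3 ∣ a ↔ 3 ∣ b) →
        ∃ u, 1 ≤ u ∧ u ≤ n ∧ ω ∈ A (a + u) ∧ ω ∈ A (Nat.dist a u) ∧ ω ∈ A (b + u) ∧
          ω ∈ A (Nat.dist b u)) ∧
      (∀ a : ℕ, a ≤ n → 3 ∣ a → ∃ v, 1 ≤ v ∧ v + 3 ≤ n ∧ ω ∈ A (a + v) ∧ ω ∈ A (Nat.dist a v) ∧
        ω ∈ A (2 * v + 3)) := by
  have hQ0 : 0 < Q := by omega
  have h1 := gen_pos hA Q hQ0 hcop hd 4 6 fam tup
    (fun n a b => 1 ≤ a ∧ a ≤ n ∧ 1 ≤ b ∧ b ≤ n ∧ a ≠ b ∧ a % 2 = b % 2 ∧ (3 ∣ a ↔ 3 ∣ b))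
    (fun n a b h => ⟨h.2.1, h.2.2.2.1⟩)
    (fun n a b h u hu => tup_card h.1 h.2.2.1 h.2.2.2.2.1 hu)
    (fun n a b h u hu => tup_zero hu)
    (fun n a b h t => mult n a b t)
    (fun n a b h u hu t ht => tup_le h.2.1 h.2.2.2.1 hu ht)
    (fun n a b h hn => fam_many Q n a b hQ hn h.2.2.2.2.2.1 h.2.2.2.2.2.2)
    (fun n a b Y h S hS hS' => fam_far n a b Y S hS hS')
  have h2 := gen_pos hA Q hQ0 hcop hd 3 6 fam tup
    (fun n a b => a = 0 ∧ 1 ≤ b ∧ b ≤ n ∧ a % 2 = b % 2 ∧ (3 ∣ a ↔ 3 ∣ b))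
    (fun n a b h => ⟨by rw [h.1]; exact Nat.zero_le _, h.2.2.1⟩)
    (fun n a b h u hu => by
      obtain ⟨rfl, h2, -⟩ := h
      exact tup_card0 h2 hu)
    (fun n a b h u hu => tup_zero hu)
    (fun n a b h t => mult n a b t)
    (fun n a b h u hu t ht => tup_le (by rw [h.1]; exact Nat.zero_le _) h.2.2.1 hu ht)
    (fun n a b h hn => fam_many Q n a b hQ hn h.2.2.2.1 h.2.2.2.2)
    (fun n a b Y h S hS hS' => fam_far n a b Y S hS hS')
  have h3 := gen_pos hA Q hQ0 hcop hd 3 6 (fun n a _ => fam2 n a) (fun a _ => tup2 a)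
    (fun n a b => 1 ≤ a ∧ a ≤ n ∧ 3 ∣ a ∧ b = 0)
    (fun n a b h => ⟨h.2.1, by rw [h.2.2.2]; exact Nat.zero_le _⟩)
    (fun n a b h u hu => tup2_card h.1 hu)
    (fun n a b h u hu => tup2_zero hu)
    (fun n a b h t => mult2 n a t)
    (fun n a b h u hu t ht => tup2_le h.2.1 hu ht)
    (fun n a b h hn => fam2_many Q n a hQ hn h.2.2.1)
    (fun n a b Y h S hS hS' => fam2_far n a Y S hS hS')
  have h4 := gen_pos hA Q hQ0 hcop hd 2 6 (fun n a _ => fam2 n a) (fun a _ => tup2 a)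
    (fun n a b => a = 0 ∧ b = 0)
    (fun n a b h => ⟨by rw [h.1]; exact Nat.zero_le _, by rw [h.2]; exact Nat.zero_le _⟩)
    (fun n a b h u hu => by
      obtain ⟨rfl, h2⟩ := h
      exact tup2_card0 hu)
    (fun n a b h u hu => tup2_zero hu)
    (fun n a b h t => mult2 n a t)
    (fun n a b h u hu t ht => tup2_le (by rw [h.1]; exact Nat.zero_le _) hu ht)
    (fun n a b h hn => fam2_many Q n a hQ hn (by rw [h.1]; exact dvd_zero 3))
    (fun n a b Y h S hS hS' => fam2_far n a Y S hS hS')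
  filter_upwards [h1, h2, h3, h4] with ω g1 g2 g3 g4
  filter_upwards [g1, g2, g3, g4] with n k1 k2 k3 k4
  have conv : ∀ a b u : ℕ, (∀ t ∈ tup a b u, ω ∈ A t) → ω ∈ A (a + u) ∧ ω ∈ A (Nat.dist a u) ∧
      ω ∈ A (b + u) ∧ ω ∈ A (Nat.dist b u) := by
    intro a b u h
    refine ⟨h _ ?_, h _ ?_, h _ ?_, h _ ?_⟩ <;> unfold tup <;> simp
  have conv2 : ∀ a u : ℕ, (∀ t ∈ tup2 a u, ω ∈ A t) → ω ∈ A (a + u) ∧ ω ∈ A (Nat.dist a u) ∧
      ω ∈ A (2 * u + 3) := by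
    intro a u h
    refine ⟨h _ ?_, h _ ?_, h _ ?_⟩ <;> unfold tup2 <;> simp
  refine ⟨fun a b ha hb hab h2' h3' => ?_, fun a ha h3' => ?_⟩
  · rcases Nat.eq_zero_or_pos a with rfl | ha0
    · obtain ⟨u, hu, hu'⟩ := k2 0 b ⟨rfl, by omega, hb, h2', h3'⟩
      have hm := mem_fam hu
      exact ⟨u, hm.1, hm.2.1, conv _ _ _ hu'⟩
    · rcases Nat.eq_zero_or_pos b with rfl | hb0
      · obtain ⟨u, hu, hu'⟩ := k2 0 a ⟨rfl, ha0, ha, h2'.symm, h3'.symm⟩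
        have hm := mem_fam hu
        obtain ⟨c1, c2, c3, c4⟩ := conv _ _ _ hu'
        exact ⟨u, hm.1, hm.2.1, c3, c4, c1, c2⟩
      · obtain ⟨u, hu, hu'⟩ := k1 a b ⟨ha0, ha, hb0, hb, hab, h2', h3'⟩
        have hm := mem_fam hu
        exact ⟨u, hm.1, hm.2.1, conv _ _ _ hu'⟩
  · rcases Nat.eq_zero_or_pos a with rfl | ha0
    · obtain ⟨u, hu, hu'⟩ := k4 0 0 ⟨rfl, rfl⟩
      have hm := mem_fam2 hu
      exact ⟨u, hm.1, hm.2.1, conv2 _ _ hu'⟩
    · obtain ⟨u, hu, hu'⟩ := k3 a 0 ⟨ha0, ha, h3', rfl⟩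
      have hm := mem_fam2 hu
      exact ⟨u, hm.1, hm.2.1, conv2 _ _ hu'⟩

end Pool.Agent.N958.GB
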