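import Mathlib

set_option autoImplicit false

/-! # Paths in Goldbach graphs: the deterministic part -/

namespace Pool.Agent.N958.GB

/-- If all pairs of vertices in the same class (modulo `2` and divisibility by `3`) have common
neighbours, and every multiple of `3` has a neighbour `v` with `2 v + 3` chosen, then all distances are
at most five. -/
theorem bound5 {A P : Set ℕ} (h6 : ∀ k ∈ A, k % 2 = 1 ∧ k % 3 ≠ 0) (hAP : A ⊆ P) (h3 : 3 ∈ P)
    {n lo : ℕ} (hlo : lo ≤ 1) (hn : 12 ≤ n)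
    (F1 : ∀ a b : ℕ, a ≤ n → b ≤ n → a ≠ b → a % 2 = b % 2 → (3 ∣ a ↔ 3 ∣ b) →
      ∃ u, 1 ≤ u ∧ u ≤ n ∧ a + u ∈ A ∧ Nat.dist a u ∈ A ∧ b + u ∈ A ∧ Nat.dist b u ∈ A)
    (F2 : ∀ a : ℕ, a ≤ n → 3 ∣ a → ∃ v, 1 ≤ v ∧ v + 3 ≤ n ∧ a + v ∈ A ∧ Nat.dist a v ∈ A ∧
      2 * v + 3 ∈ A)
    {V : Type*} (H : SimpleGraph V) (f : ℕ → V)
    (hadj : ∀ a u, lo ≤ a → a ≤ n → lo ≤ u → u ≤ n → a + u ∈ P → (a + u) % 2 = 1 →
      Nat.dist a u ∈ P → Nat.dist a u % 2 = 1 → H.Adj (f a) (f u)) :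
    ∀ a b, lo ≤ a → a ≤ n → lo ≤ b → b ≤ n → H.edist (f a) (f b) ≤ 5 := by
  have tri : ∀ (x y z : V) (i j k : ℕ), H.edist x y ≤ i → H.edist y z ≤ j → i + j ≤ k →
      H.edist x z ≤ k := by
    intro x y z i j k h1 h2 hk
    calc H.edist x z ≤ H.edist x y + H.edist y z := SimpleGraph.edist_triangle
      _ ≤ (i : ℕ∞) + j := add_le_add h1 h2
      _ = ((i + j : ℕ) : ℕ∞) := by push_cast; rfl
      _ ≤ k := by exact_mod_cast hk
  have symm : ∀ (x y : V) (i : ℕ), H.edist x y ≤ i → H.edist y x ≤ i := by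
    intro x y i h
    rwa [SimpleGraph.edist_comm]
  have one : ∀ x y : V, H.Adj x y → H.edist x y ≤ (1 : ℕ) := by
    intro x y h
    rw [SimpleGraph.edist_eq_one_iff_adj.2 h]
    simp
  -- edges from `A`
  have e0 : ∀ a u, lo ≤ a → a ≤ n → 1 ≤ u → u ≤ n → a + u ∈ A → Nat.dist a u ∈ A →
      H.edist (f a) (f u) ≤ (1 : ℕ) := by
    intro a u ha ha' hu hu' h1 h2
    exact one _ _ (hadj a u ha ha' (hlo.trans hu) hu' (hAP h1) (h6 _ h1).1 (hAP h2) (h6 _ h2).1)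
  -- the classes
  have cls : ∀ a u, a + u ∈ A → Nat.dist a u ∈ A → a % 2 ≠ u % 2 ∧ (3 ∣ a ↔ ¬ 3 ∣ u) := by
    intro a u h1 h2
    have k1 := h6 _ h1
    have k2 := h6 _ h2
    unfold Nat.dist at k2
    have m1 : a % 3 = 0 ∨ a % 3 = 1 ∨ a % 3 = 2 := by omega
    have m2 : u % 3 = 0 ∨ u % 3 = 1 ∨ u % 3 = 2 := by omega
    refine ⟨by omega, ?_⟩
    rcases le_total a u with hau | hau
    · obtain ⟨d, rfl⟩ := Nat.exists_eq_add_of_le hau
      have e : a - (a + d) + (a + d - a) = d := by omega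
      rw [e] at k2
      rcases m1 with m1 | m1 | m1 <;> rcases m2 with m2 | m2 | m2 <;> omega
    · obtain ⟨d, rfl⟩ := Nat.exists_eq_add_of_le hau
      have e : u + d - u + (u - (u + d)) = d := by omega
      rw [e] at k2
      rcases m1 with m1 | m1 | m1 <;> rcases m2 with m2 | m2 | m2 <;> omega
  -- same class
  have s1 : ∀ a b, lo ≤ a → a ≤ n → lo ≤ b → b ≤ n → a % 2 = b % 2 → (3 ∣ a ↔ 3 ∣ b) →
      H.edist (f a) (f b) ≤ (2 : ℕ) := by
    intro a b ha ha' hb hb' h1 h2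
    by_cases hab : a = b
    · rw [hab, SimpleGraph.edist_self]
      simp
    · obtain ⟨u, hu, hu', k1, k2, k3, k4⟩ := F1 a b ha' hb' hab h1 h2
      exact tri _ (f u) _ 1 1 2 (e0 a u ha ha' hu hu' k1 k2)
        (symm _ _ _ (e0 b u hb hb' hu hu' k3 k4)) le_rfl
  -- neighbours
  have nb : ∀ a, lo ≤ a → a ≤ n → ∃ u, 1 ≤ u ∧ u ≤ n ∧ a % 2 ≠ u % 2 ∧ (3 ∣ a ↔ ¬ 3 ∣ u) ∧
      H.edist (f a) (f u) ≤ (1 : ℕ) := by
    intro a ha ha'
    have h1 : ∃ b, b ≤ n ∧ a ≠ b ∧ a % 2 = b % 2 ∧ (3 ∣ a ↔ 3 ∣ b) := by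
      by_cases h : a + 6 ≤ n
      · exact ⟨a + 6, h, by omega, by omega, by omega⟩
      · exact ⟨a - 6, by omega, by omega, by omega, by omega⟩
    obtain ⟨b, hb', hab, h1, h2⟩ := h1
    obtain ⟨u, hu, hu', k1, k2, -, -⟩ := F1 a b ha' hb' hab h1 h2
    exact ⟨u, hu, hu', (cls a u k1 k2).1, (cls a u k1 k2).2, e0 a u ha ha' hu hu' k1 k2⟩
  -- opposite class
  have s3 : ∀ a b, lo ≤ a → a ≤ n → lo ≤ b → b ≤ n → a % 2 ≠ b % 2 → (3 ∣ a ↔ ¬ 3 ∣ b) →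
      H.edist (f a) (f b) ≤ (3 : ℕ) := by
    intro a b ha ha' hb hb' h1 h2
    obtain ⟨u, hu, hu', k1, k2, k3⟩ := nb b hb hb'
    refine tri _ (f u) _ 2 1 3 (s1 a u ha ha' (hlo.trans hu) hu' (by omega) (by tauto)) (symm _ _ _ k3) le_rfl
  -- special edges
  have s2 : ∀ a, lo ≤ a → a ≤ n → 3 ∣ a → ∃ v, 1 ≤ v ∧ v + 3 ≤ n ∧ ¬ 3 ∣ v ∧
      a % 2 = (v + 3) % 2 ∧ H.edist (f a) (f v) ≤ (1 : ℕ) ∧ H.edist (f v) (f (v + 3)) ≤ (1 : ℕ) := by
    intro a ha ha' h3a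
    obtain ⟨v, hv, hv', k1, k2, k3⟩ := F2 a ha' h3a
    have c1 := cls a v k1 k2
    have c2 := h6 _ k3
    refine ⟨v, hv, hv', by omega, by omega, e0 a v ha ha' hv (by omega) k1 k2, one _ _ ?_⟩
    refine hadj v (v + 3) (hlo.trans hv) (by omega) (by omega) hv' ?_ ?_ ?_ ?_
    · have : v + (v + 3) = 2 * v + 3 := by ring
      rw [this]
      exact hAP k3
    · omega
    · have : Nat.dist v (v + 3) = 3 := by unfold Nat.dist; omega
      rw [this]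
      exact h3
    · unfold Nat.dist
      omega
  -- one multiple of three
  have s4 : ∀ a b, lo ≤ a → a ≤ n → lo ≤ b → b ≤ n → 3 ∣ a → ¬ 3 ∣ b → a % 2 = b % 2 →
      H.edist (f a) (f b) ≤ (4 : ℕ) := by
    intro a b ha ha' hb hb' h3a h3b h2
    obtain ⟨v, hv, hv', k1, k2, k3, k4⟩ := s2 a ha ha' h3a
    have k5 : H.edist (f a) (f (v + 3)) ≤ (2 : ℕ) := tri _ (f v) _ 1 1 2 k3 k4 le_rfl
    exact tri _ (f (v + 3)) _ 2 2 4 k5 (s1 (v + 3) b (by omega) hv' hb hb' (by omega) (by omega)) le_rfl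
  intro a b ha ha' hb hb'
  have goal5 : H.edist (f a) (f b) ≤ (5 : ℕ) := by
    by_cases h2 : a % 2 = b % 2
    · by_cases h3a : 3 ∣ a
      · by_cases h3b : 3 ∣ b
        · exact (s1 a b ha ha' hb hb' h2 (by tauto)).trans (by exact_mod_cast (by norm_num : (2 : ℕ) ≤ 5))
        · exact (s4 a b ha ha' hb hb' h3a h3b h2).trans (by exact_mod_cast (by norm_num : (4 : ℕ) ≤ 5))
      · by_cases h3b : 3 ∣ b
        · exact (symm _ _ _ (s4 b a hb hb' ha ha' h3b h3a h2.symm)).trans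
            (by exact_mod_cast (by norm_num : (4 : ℕ) ≤ 5))
        · exact (s1 a b ha ha' hb hb' h2 (by tauto)).trans (by exact_mod_cast (by norm_num : (2 : ℕ) ≤ 5))
    · by_cases h3a : 3 ∣ a
      · by_cases h3b : 3 ∣ b
        · obtain ⟨v, hv, hv', k1, k2, k3, k4⟩ := s2 a ha ha' h3a
          have k5 : H.edist (f a) (f (v + 3)) ≤ (2 : ℕ) := tri _ (f v) _ 1 1 2 k3 k4 le_rfl
          exact tri _ (f (v + 3)) _ 2 3 5 k5
            (s3 (v + 3) b (by omega) hv' hb hb' (by omega) (by omega)) le_rfl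
        · exact (s3 a b ha ha' hb hb' h2 (by tauto)).trans (by exact_mod_cast (by norm_num : (3 : ℕ) ≤ 5))
      · by_cases h3b : 3 ∣ b
        · exact (s3 a b ha ha' hb hb' h2 (by tauto)).trans (by exact_mod_cast (by norm_num : (3 : ℕ) ≤ 5))
        · obtain ⟨v, hv, hv', k1, k2, k3, k4⟩ := s2 3 (by omega) (by omega) (dvd_refl 3)
          by_cases hp : a % 2 = v % 2
          · have k5 := s1 a v ha ha' (by omega) (by omega) hp (by tauto)
            have k6 := s1 (v + 3) b (by omega) hv' hb hb' (by omega) (by omega)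
            exact tri _ (f (v + 3)) _ 3 2 5 (tri _ (f v) _ 2 1 3 k5 k4 le_rfl) k6 le_rfl
          · have k5 := s1 a (v + 3) ha ha' (by omega) hv' (by omega) (by omega)
            have k6 := s1 v b (by omega) (by omega) hb hb' (by omega) (by tauto)
            exact tri _ (f v) _ 3 2 5 (tri _ (f (v + 3)) _ 2 1 3 k5 (symm _ _ _ k4) le_rfl) k6 le_rfl
  exact_mod_cast goal5

end Pool.Agent.N958.GB
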